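import Mathlib
import Pool.Agent.Helper62.PspDefs
import Pool.Agent.Helper62.PspMain

namespace Pool.Agent.Results.MP_31f6f1_lc.PolynomialTime

open Pool.Agent.Helper62.PspDefs

/-- For every fixed dimension and every fixed polyhedral unit ball with rational vertices,
Max-2-PSP is solved in polynomial time. -/
theorem result (s : ℕ) (V : Finset (Fin s → ℚ)) (hV : IsUnitBall V) : Solvable V :=
  Pool.Agent.Helper62.PspMain.solvable hV

end Pool.Agent.Results.MP_31f6f1_lc.PolynomialTime
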